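import Pool.Agent.W397.HC.Three

set_option autoImplicit false

/-!
# Colouring the `n × n` grid with `(1 + o(1)) n` colours, no three collinear points of one colour

Colour the point `(x, y)` with `y - x ^ 2` modulo a prime `p ≥ n`: three points of one colour class
have a Vandermonde determinant modulo `p`, so they are not collinear. By the prime number theorem
`p` may be taken `(1 + o(1)) n`.
-/

namespace Pool.Agent.Results.MP_1efb31_co.OneSuffices

open Finset

/-- The grid `{1, …, n}²` has an admissible colouring with `k` colours: no three distinct points of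
the same colour lie on a common line `a x + b y = c` of the real plane. -/
def Admissible (n k : ℕ) : Prop :=
  ∃ col : ℕ × ℕ → ℕ, (∀ P ∈ Icc 1 n ×ˢ Icc 1 n, col P < k) ∧
    ∀ P ∈ Icc 1 n ×ˢ Icc 1 n, ∀ Q ∈ Icc 1 n ×ˢ Icc 1 n, ∀ R ∈ Icc 1 n ×ˢ Icc 1 n,
      P ≠ Q → P ≠ R → Q ≠ R → col P = col Q → col P = col R →
      ¬ ∃ a b c : ℝ, (a ≠ 0 ∨ b ≠ 0) ∧ a * P.1 + b * P.2 = c ∧ a * Q.1 + b * Q.2 = c ∧
        a * R.1 + b * R.2 = c

/-- The least number of colours of an admissible colouring of the grid. -/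
noncomputable def chi (n : ℕ) : ℕ := sInf {k : ℕ | Admissible n k}

/-- `chi n ≤ p` for every prime `p ≥ n`; for every `ε > 0` and all large `n` there is an admissible
colouring with at most `(1 + ε) n` colours; the upper limit of `chi n / n` is at most `1`. -/
theorem result :
    (∀ n p : ℕ, p.Prime → n ≤ p → Admissible n p ∧ chi n ≤ p) ∧
    (∀ ε : ℝ, 0 < ε → ∃ N : ℕ, ∀ n : ℕ, N ≤ n →
      Admissible n (chi n) ∧ (chi n : ℝ) ≤ (1 + ε) * n) ∧
    Filter.limsup (fun n : ℕ => (chi n : ℝ) / n) Filter.atTop ≤ 1 := by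
  have h1 : ∀ n p : ℕ, p.Prime → n ≤ p → Admissible n p ∧ chi n ≤ p := by
    intro n p hp hn
    have h : Admissible n p := Pool.Agent.W397.Three.prime_colouring hp hn
    exact ⟨h, Nat.sInf_le h⟩
  have h2 : ∀ ε : ℝ, 0 < ε → ∃ N : ℕ, ∀ n : ℕ, N ≤ n →
      Admissible n (chi n) ∧ (chi n : ℝ) ≤ (1 + ε) * n := by
    intro ε hε
    obtain ⟨N, hN⟩ := Filter.eventually_atTop.1 (Pool.Agent.W397.Three.prime_between ε hε)
    refine ⟨N, fun n hn => ?_⟩
    obtain ⟨p, hp, hnp, hpn⟩ := hN n hn
    have h := h1 n p hp hnp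
    have hne : {k : ℕ | Admissible n k}.Nonempty := ⟨p, h.1⟩
    refine ⟨Nat.sInf_mem hne, ?_⟩
    have h3 : (chi n : ℝ) ≤ p := by exact_mod_cast h.2
    linarith
  refine ⟨h1, h2, ?_⟩
  refine le_of_forall_pos_le_add (fun ε hε => ?_)
  refine Filter.limsup_le_of_le ?_ ?_
  · refine Filter.IsCoboundedUnder.of_frequently_ge (a := 0) ?_
    exact Filter.Frequently.of_forall (fun n => by positivity)
  · obtain ⟨N, hN⟩ := h2 ε hε
    filter_upwards [Filter.eventually_ge_atTop N, Filter.eventually_gt_atTop 0] with n hn hn0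
    have hn' : (0 : ℝ) < n := by exact_mod_cast hn0
    rw [div_le_iff₀ hn']
    exact (hN n hn).2

end Pool.Agent.Results.MP_1efb31_co.OneSuffices
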